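import Pool.Agent.Helper99_OD.Cyl

/-! Independent copies of a consistent family on the fibres of a product, and products of colours. -/

set_option autoImplicit false

open Set

namespace Pool.Agent.OD.H99

/-- A consistent factorising family on an abelian group with an adjacency relation. -/
structure GFam (V κ : Type) [AddCommGroup V] [DecidableEq V] [Fintype κ]
    (Adj : V → V → Prop) (p : Finset V → (V → κ) → ℝ) : Prop where
  nonneg : ∀ L x, 0 ≤ p L x
  empty : ∀ x, p ∅ x = 1
  dep : ∀ L x y, (∀ v ∈ L, x v = y v) → p L x = p L y
  sum : ∀ L x v, v ∉ L → ∑ b, p (insert v L) (Function.update x v b) = p L x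
  proper : ∀ L x u v, u ∈ L → v ∈ L → Adj u v → x u = x v → p L x = 0
  shift : ∀ L x a, p (L.image fun v => v + a) x = p L (fun v => x (v + a))
  mul : ∀ A B x, (∀ u ∈ A, ∀ v ∈ B, u ≠ v ∧ ¬ Adj u v) → p (A ∪ B) x = p A x * p B x

section fib

variable {V I W κ : Type} [AddCommGroup V] [AddCommGroup I] [AddCommGroup W]
  [DecidableEq V] [DecidableEq I] [DecidableEq W] [Fintype κ]

/-- The part of `L` in the fibre over `i`. -/
def slice (e : V ≃+ I × W) (L : Finset V) (i : I) : Finset W :=
  (L.filter fun v => (e v).1 = i).image fun v => (e v).2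

lemma mem_slice (e : V ≃+ I × W) (L : Finset V) (i : I) (w : W) :
    w ∈ slice e L i ↔ e.symm (i, w) ∈ L := by
  unfold slice
  rw [Finset.mem_image]
  constructor
  · rintro ⟨v, hv, rfl⟩
    obtain ⟨h1, h2⟩ := Finset.mem_filter.1 hv
    have h3 : (i, (e v).2) = e v := by rw [← h2]
    rw [h3, AddEquiv.symm_apply_apply]
    exact h1
  · intro h
    exact ⟨e.symm (i, w), Finset.mem_filter.2 ⟨h, by simp⟩, by simp⟩

/-- Independent copies of `p` on the fibres. -/
noncomputable def fib (e : V ≃+ I × W) (p : Finset W → (W → κ) → ℝ) (L : Finset V) (x : V → κ) : ℝ :=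
  ∏ i ∈ L.image (fun v => (e v).1), p (slice e L i) fun w => x (e.symm (i, w))

lemma slice_empty (e : V ≃+ I × W) (L : Finset V) (i : I) (h : i ∉ L.image (fun v => (e v).1)) :
    slice e L i = ∅ := by
  ext w
  rw [mem_slice]
  constructor
  · intro hw
    refine absurd (Finset.mem_image.2 ⟨_, hw, ?_⟩) h
    simp
  · intro hw
    simp at hw

lemma fib_eq (e : V ≃+ I × W) (Adj : W → W → Prop) (p : Finset W → (W → κ) → ℝ)
    (hp : GFam W κ Adj p) (L : Finset V) (x : V → κ) (S : Finset I)
    (hS : L.image (fun v => (e v).1) ⊆ S) :
    fib e p L x = ∏ i ∈ S, p (slice e L i) fun w => x (e.symm (i, w)) := by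
  unfold fib
  refine Finset.prod_subset hS fun i _ hi => ?_
  rw [slice_empty e L i hi, hp.empty]

/-- Adjacency inside the fibres. -/
def FAdj (e : V ≃+ I × W) (Adj : W → W → Prop) (u v : V) : Prop :=
  (e u).1 = (e v).1 ∧ Adj (e u).2 (e v).2

theorem fib_fam (e : V ≃+ I × W) (Adj : W → W → Prop) (p : Finset W → (W → κ) → ℝ)
    (hp : GFam W κ Adj p) : GFam V κ (FAdj e Adj) (fib e p) := by
  refine ⟨?_, ?_, ?_, ?_, ?_, ?_, ?_⟩
  · intro L x
    exact Finset.prod_nonneg fun i _ => hp.nonneg _ _
  · intro x
    simp [fib]
  · intro L x y h
    unfold fib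
    refine Finset.prod_congr rfl fun i _ => hp.dep _ _ _ fun w hw => ?_
    rw [mem_slice] at hw
    exact h _ hw
  · intro L x v hv
    set S := insert (e v).1 (L.image fun v => (e v).1) with hSdef
    have hS1 : (insert v L).image (fun v => (e v).1) ⊆ S := by
      rw [Finset.image_insert]
    have hS2 : L.image (fun v => (e v).1) ⊆ S := Finset.subset_insert _ _
    have h0 : (e v).1 ∈ S := Finset.mem_insert_self _ _
    rw [fib_eq e Adj p hp L x S hS2, ← Finset.mul_prod_erase S _ h0]
    have h1 : ∀ b, fib e p (insert v L) (Function.update x v b) =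
        p (insert (e v).2 (slice e L (e v).1))
          (Function.update (fun w => x (e.symm ((e v).1, w))) (e v).2 b) *
        ∏ i ∈ S.erase (e v).1, p (slice e L i) fun w => x (e.symm (i, w)) := by
      intro b
      rw [fib_eq e Adj p hp (insert v L) _ S hS1, ← Finset.mul_prod_erase S _ h0]
      congr 1
      · have h2 : slice e (insert v L) (e v).1 = insert (e v).2 (slice e L (e v).1) := by
          ext w
          rw [mem_slice, Finset.mem_insert, Finset.mem_insert, mem_slice]
          refine or_congr ?_ Iff.rfl
          rw [AddEquiv.symm_apply_eq]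
          constructor
          · intro h
            rw [← h]
          · intro h
            rw [h]
        have h3 : (fun w => Function.update x v b (e.symm ((e v).1, w))) =
            Function.update (fun w => x (e.symm ((e v).1, w))) (e v).2 b := by
          funext w
          by_cases hw : w = (e v).2
          · subst hw
            simp
          · rw [Function.update_of_ne hw, Function.update_of_ne]
            intro h
            rw [AddEquiv.symm_apply_eq] at h
            exact hw (by rw [← h])
        rw [h2, h3]
      · refine Finset.prod_congr rfl fun i hi => ?_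
        have hi' := Finset.ne_of_mem_erase hi
        have h2 : slice e (insert v L) i = slice e L i := by
          ext w
          rw [mem_slice, Finset.mem_insert, mem_slice]
          constructor
          · rintro (h | h)
            · rw [AddEquiv.symm_apply_eq] at h
              exact absurd (by rw [← h]) hi'
            · exact h
          · exact Or.inr
        rw [h2]
        refine hp.dep _ _ _ fun w hw => ?_
        rw [Function.update_of_ne]
        rintro rfl
        rw [mem_slice] at hw
        exact hv hw
    rw [Finset.sum_congr rfl fun b _ => h1 b, ← Finset.sum_mul, hp.sum]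
    rw [mem_slice]
    simpa using hv
  · intro L x u v hu hv huv hx
    unfold fib
    refine Finset.prod_eq_zero (i := (e u).1) (Finset.mem_image_of_mem _ hu) ?_
    refine hp.proper _ _ (e u).2 (e v).2 ?_ ?_ huv.2 ?_
    · rw [mem_slice]
      simpa using hu
    · rw [mem_slice, huv.1]
      simpa using hv
    · have h1 : e.symm ((e u).1, (e u).2) = u := by simp
      have h2 : e.symm ((e u).1, (e v).2) = v := by rw [huv.1]; simp
      rw [h1, h2, hx]
  · intro L x a
    unfold fib
    have h1 : (L.image fun v => v + a).image (fun v => (e v).1) =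
        (L.image fun v => (e v).1).image fun i => i + (e a).1 := by
      rw [Finset.image_image, Finset.image_image]
      congr 1
      funext v
      simp
    rw [h1, Finset.prod_image (fun i _ j _ h => add_right_cancel h)]
    refine Finset.prod_congr rfl fun i _ => ?_
    have h2 : slice e (L.image fun v => v + a) (i + (e a).1) =
        (slice e L i).image fun w => w + (e a).2 := by
      ext w
      rw [mem_slice, Finset.mem_image, Finset.mem_image]
      constructor
      · rintro ⟨v, hv, h⟩
        refine ⟨(e v).2, ?_, ?_⟩
        · rw [mem_slice]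
          have h3 : i + (e a).1 = (e v).1 + (e a).1 := by
            have := congrArg (fun v => (e v).1) h
            simp only [map_add, AddEquiv.apply_symm_apply, Prod.fst_add] at this
            exact this.symm
          rw [add_right_cancel h3]
          simpa using hv
        · have := congrArg (fun v => (e v).2) h
          simpa using this
      · rintro ⟨w', hw', rfl⟩
        rw [mem_slice] at hw'
        refine ⟨_, hw', ?_⟩
        rw [AddEquiv.eq_symm_apply, map_add, AddEquiv.apply_symm_apply]
        rfl
    rw [h2, hp.shift]
    refine hp.dep _ _ _ fun w _ => ?_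
    congr 1
    rw [AddEquiv.symm_apply_eq, map_add, AddEquiv.apply_symm_apply]
    rfl
  · intro A B x hAB
    set S := (A ∪ B).image (fun v => (e v).1) with hSdef
    have hA : A.image (fun v => (e v).1) ⊆ S := Finset.image_subset_image Finset.subset_union_left
    have hB : B.image (fun v => (e v).1) ⊆ S := Finset.image_subset_image Finset.subset_union_right
    rw [fib_eq e Adj p hp (A ∪ B) x S (Finset.Subset.refl _), fib_eq e Adj p hp A x S hA,
      fib_eq e Adj p hp B x S hB, ← Finset.prod_mul_distrib]
    refine Finset.prod_congr rfl fun i _ => ?_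
    have h2 : slice e (A ∪ B) i = slice e A i ∪ slice e B i := by
      ext w
      rw [mem_slice, Finset.mem_union, Finset.mem_union, mem_slice, mem_slice]
    rw [h2]
    refine hp.mul _ _ _ fun u hu v hv => ?_
    rw [mem_slice] at hu hv
    obtain ⟨h3, h4⟩ := hAB _ hu _ hv
    refine ⟨fun h => h3 (by rw [h]), fun h => h4 ⟨by simp, by simpa using h⟩⟩

end fib

section colours

variable {V κ κ' : Type} [AddCommGroup V] [DecidableEq V] [Fintype κ] [Fintype κ']

/-- Two independent families with product colours. -/
theorem mul_fam (Adj Adj' : V → V → Prop) (p : Finset V → (V → κ) → ℝ)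
    (p' : Finset V → (V → κ') → ℝ) (hp : GFam V κ Adj p) (hp' : GFam V κ' Adj' p') :
    GFam V (κ × κ') (fun u v => Adj u v ∨ Adj' u v)
      (fun L x => p L (fun v => (x v).1) * p' L fun v => (x v).2) := by
  refine ⟨?_, ?_, ?_, ?_, ?_, ?_, ?_⟩
  · intro L x
    exact mul_nonneg (hp.nonneg _ _) (hp'.nonneg _ _)
  · intro x
    rw [hp.empty, hp'.empty, one_mul]
  · intro L x y h
    rw [hp.dep L _ _ fun v hv => congrArg Prod.fst (h v hv),
      hp'.dep L _ _ fun v hv => congrArg Prod.snd (h v hv)]
  · intro L x v hv
    have h1 : ∀ b : κ × κ', (fun w => (Function.update x v b w).1) =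
        Function.update (fun w => (x w).1) v b.1 := by
      intro b
      funext w
      by_cases hw : w = v
      · subst hw
        simp
      · simp [Function.update_of_ne hw]
    have h2 : ∀ b : κ × κ', (fun w => (Function.update x v b w).2) =
        Function.update (fun w => (x w).2) v b.2 := by
      intro b
      funext w
      by_cases hw : w = v
      · subst hw
        simp
      · simp [Function.update_of_ne hw]
    simp only [h1, h2]
    rw [Fintype.sum_prod_type]
    simp only [← Finset.mul_sum, ← Finset.sum_mul]
    rw [hp.sum L _ v hv, hp'.sum L _ v hv]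
  · intro L x u v hu hv huv hx
    rcases huv with h | h
    · rw [hp.proper L _ u v hu hv h (by rw [hx]), zero_mul]
    · rw [hp'.proper L _ u v hu hv h (by rw [hx]), mul_zero]
  · intro L x a
    rw [hp.shift, hp'.shift]
  · intro A B x hAB
    rw [hp.mul A B _ fun u hu v hv => ⟨(hAB u hu v hv).1, fun h => (hAB u hu v hv).2 (Or.inl h)⟩,
      hp'.mul A B _ fun u hu v hv => ⟨(hAB u hu v hv).1, fun h => (hAB u hu v hv).2 (Or.inr h)⟩]
    ring

/-- Renaming of the colours. -/
theorem map_fam (Adj : V → V → Prop) (σ : κ' ≃ κ) (p : Finset V → (V → κ) → ℝ)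
    (hp : GFam V κ Adj p) : GFam V κ' Adj (fun L x => p L fun v => σ (x v)) := by
  refine ⟨fun L x => hp.nonneg _ _, fun x => hp.empty _, ?_, ?_, ?_, ?_, ?_⟩
  · intro L x y h
    exact hp.dep L _ _ fun v hv => congrArg σ (h v hv)
  · intro L x v hv
    rw [← hp.sum L _ v hv, ← Equiv.sum_comp σ]
    refine Finset.sum_congr rfl fun b _ => ?_
    congr 1
    funext w
    by_cases hw : w = v
    · subst hw
      simp
    · simp [Function.update_of_ne hw]
  · intro L x u v hu hv huv hx
    exact hp.proper L _ u v hu hv huv (by rw [hx])
  · intro L x a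
    exact hp.shift _ _ _
  · intro A B x hAB
    exact hp.mul _ _ _ hAB

end colours

end Pool.Agent.OD.H99
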