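import Pool.Agent.Helper99_OD.Fib
import Pool.Agent.Helper46_OD.Stmts
import Pool.Agent.Helper52_OD.Stmts

/-! The product of a colouring of the lines and a colouring of the hyperplanes. -/

set_option autoImplicit false

open MeasureTheory ProbabilityTheory Set

namespace Pool.Agent.OD.H99

variable {d : ℕ}

/-- Coordinates: the line and the position on the line, direction `i`. -/
def E1 (i : Fin (d + 1)) : (Fin (d + 1) → ℤ) ≃+ (Fin d → ℤ) × (Fin 1 → ℤ) where
  toFun u := (fun j => u (i.succAbove j), fun _ => u i)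
  invFun w := i.insertNth (α := fun _ => ℤ) (w.2 0) w.1
  left_inv u := by
    funext j
    refine Fin.succAboveCases i ?_ (fun j => ?_) j
    · simp
    · simp
  right_inv w := by
    refine Prod.ext ?_ ?_
    · funext j
      simp
    · funext j
      have : j = 0 := Subsingleton.elim _ _
      subst this
      simp
  map_add' u v := rfl

/-- Coordinates: the hyperplane and the position in the hyperplane, direction `i`. -/
def E2 (i : Fin (d + 1)) : (Fin (d + 1) → ℤ) ≃+ (Fin 1 → ℤ) × (Fin d → ℤ) where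
  toFun u := (fun _ => u i, fun j => u (i.succAbove j))
  invFun w := i.insertNth (α := fun _ => ℤ) (w.1 0) w.2
  left_inv u := by
    funext j
    refine Fin.succAboveCases i ?_ (fun j => ?_) j
    · simp
    · simp
  right_inv w := by
    refine Prod.ext ?_ ?_
    · funext j
      have : j = 0 := Subsingleton.elim _ _
      subst this
      simp
    · funext j
      simp
  map_add' u v := rfl

lemma ladj_iff (i : Fin (d + 1)) (u v : Fin (d + 1) → ℤ) :
    LAdj u v ↔ FAdj (E1 i) LAdj u v ∨ FAdj (E2 i) LAdj u v := by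
  have h1 : ∑ j, |u j - v j| = |u i - v i| + ∑ j : Fin d, |u (i.succAbove j) - v (i.succAbove j)| :=
    Fin.sum_univ_succAbove (fun j => |u j - v j|) i
  have h2 : 0 ≤ |u i - v i| := abs_nonneg _
  have h3 : 0 ≤ ∑ j : Fin d, |u (i.succAbove j) - v (i.succAbove j)| :=
    Finset.sum_nonneg fun j _ => abs_nonneg _
  have h4 : (∑ j : Fin 1, |(fun _ : Fin 1 => u i) j - (fun _ : Fin 1 => v i) j|) = |u i - v i| := by
    simp
  have h5 : |u i - v i| = 0 ↔ (fun _ : Fin 1 => u i) = fun _ => v i := by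
    rw [abs_eq_zero, sub_eq_zero]
    constructor
    · intro h
      rw [h]
    · intro h
      exact congrFun h 0
  have h6 : (∑ j : Fin d, |u (i.succAbove j) - v (i.succAbove j)|) = 0 ↔
      (fun j => u (i.succAbove j)) = fun j => v (i.succAbove j) := by
    rw [Finset.sum_eq_zero_iff_of_nonneg fun j _ => abs_nonneg _]
    constructor
    · intro h
      funext j
      have := h j (Finset.mem_univ j)
      rwa [abs_eq_zero, sub_eq_zero] at this
    · intro h j _
      rw [abs_eq_zero, sub_eq_zero]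
      exact congrFun h j
  unfold FAdj LAdj
  simp only [E1, E2, AddEquiv.coe_mk, Equiv.coe_fn_mk]
  rw [h4, h1, ← h5, ← h6]
  omega

lemma gfam_iff (q : ℕ) (p : Finset (Fin d → ℤ) → ((Fin d → ℤ) → Fin q) → ℝ) :
    GFam (Fin d → ℤ) (Fin q) LAdj p ↔ IsFam d q p :=
  ⟨fun h => ⟨h.nonneg, h.empty, h.dep, h.sum, h.proper, h.shift, h.mul⟩,
    fun h => ⟨h.nonneg, h.empty, h.dep, h.sum, h.proper, h.shift, h.mul⟩⟩

section mono

variable {V κ : Type} [AddCommGroup V] [DecidableEq V] [Fintype κ]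

lemma mono_insert (Adj : V → V → Prop) (p : Finset V → (V → κ) → ℝ) (hp : GFam V κ Adj p)
    (L : Finset V) (v : V) (x : V → κ) : p (insert v L) x ≤ p L x := by
  by_cases hv : v ∈ L
  · rw [Finset.insert_eq_of_mem hv]
  · have h1 := hp.sum L x v hv
    have h2 : p (insert v L) x = p (insert v L) (Function.update x v (x v)) := by
      rw [Function.update_eq_self]
    rw [h2, ← h1]
    exact Finset.single_le_sum (f := fun b => p (insert v L) (Function.update x v b))
      (fun b _ => hp.nonneg _ _) (Finset.mem_univ (x v))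

lemma mono (Adj : V → V → Prop) (p : Finset V → (V → κ) → ℝ) (hp : GFam V κ Adj p)
    (L M : Finset V) (h : L ⊆ M) (x : V → κ) : p M x ≤ p L x := by
  have key : ∀ K : Finset V, p (K ∪ L) x ≤ p L x := by
    intro K
    induction K using Finset.induction_on with
    | empty => simp
    | insert v K hv ih =>
      rw [Finset.insert_union]
      exact (mono_insert Adj p hp _ v x).trans ih
  have h1 := key M
  rwa [Finset.union_eq_left.2 h] at h1

end mono

/-- Independent colourings of the lines of direction `i` (colours `Fin m`) and of the hyperplanes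
(colours `Fin n`). -/
noncomputable def prd (i : Fin (d + 1)) (m n : ℕ)
    (p1 : Finset (Fin 1 → ℤ) → ((Fin 1 → ℤ) → Fin m) → ℝ)
    (p2 : Finset (Fin d → ℤ) → ((Fin d → ℤ) → Fin n) → ℝ)
    (L : Finset (Fin (d + 1) → ℤ)) (x : (Fin (d + 1) → ℤ) → Fin (m * n)) : ℝ :=
  fib (E1 i) p1 L (fun v => (finProdFinEquiv.symm (x v)).1) *
    fib (E2 i) p2 L (fun v => (finProdFinEquiv.symm (x v)).2)

theorem prd_fam (i : Fin (d + 1)) (m n : ℕ)
    (p1 : Finset (Fin 1 → ℤ) → ((Fin 1 → ℤ) → Fin m) → ℝ)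
    (p2 : Finset (Fin d → ℤ) → ((Fin d → ℤ) → Fin n) → ℝ) (h1 : IsFam 1 m p1)
    (h2 : IsFam d n p2) : IsFam (d + 1) (m * n) (prd i m n p1 p2) := by
  have g1 := fib_fam (E1 i) LAdj p1 ((gfam_iff m p1).2 h1)
  have g2 := fib_fam (E2 i) LAdj p2 ((gfam_iff n p2).2 h2)
  have g3 := map_fam _ (finProdFinEquiv (m := m) (n := n)).symm _ (mul_fam _ _ _ _ g1 g2)
  rw [← gfam_iff]
  refine ⟨g3.nonneg, g3.empty, g3.dep, g3.sum, ?_, g3.shift, ?_⟩
  · intro L x u v hu hv huv hx
    exact g3.proper L x u v hu hv ((ladj_iff i u v).1 huv) hx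
  · intro A B x hAB
    exact g3.mul A B x fun u hu v hv => ⟨(hAB u hu v hv).1,
      fun h => (hAB u hu v hv).2 ((ladj_iff i u v).2 h)⟩

lemma fib_zero {V I W κ : Type} [AddCommGroup V] [AddCommGroup I] [AddCommGroup W]
    [DecidableEq V] [DecidableEq I] [DecidableEq W] [Fintype κ] (e : V ≃+ I × W)
    (Adj : W → W → Prop) (p : Finset W → (W → κ) → ℝ) (hp : GFam W κ Adj p) (L : Finset V)
    (x : V → κ) (u v : V) (hu : u ∈ L) (hv : v ∈ L) (huv : (e u).1 = (e v).1)
    (h0 : p {(e u).2, (e v).2} (fun w => x (e.symm ((e u).1, w))) = 0) : fib e p L x = 0 := by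
  unfold fib
  refine Finset.prod_eq_zero (i := (e u).1) (Finset.mem_image_of_mem _ hu) ?_
  refine le_antisymm ?_ (hp.nonneg _ _)
  rw [← h0]
  refine mono Adj p hp _ _ ?_ _
  intro w hw
  rw [mem_slice]
  rcases Finset.mem_insert.1 hw with rfl | hw
  · simpa using hu
  · rw [Finset.mem_singleton.1 hw, huv]
    simpa using hv

theorem prodStmt : Pool.Agent.OD.H52.ProdStmt := by
  intro d m p1 p2 hm h1 h2
  refine ⟨prd 0 4 m p1 p2, prd_fam 0 4 m p1 p2 h1 h2, fun c => (finProdFinEquiv.symm c).1,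
    fun c => (finProdFinEquiv.symm c).2, ?_, ?_⟩
  · intro L x k w hk hk1 hr
    unfold prd
    refine mul_eq_zero_of_left ?_ _
    refine fib_zero (E1 0) LAdj p1 ((gfam_iff 4 p1).2 h1) L _ (H52.cn k w) (H52.cn (k + 1) w)
      hk hk1 rfl ?_
    refine h1.proper _ _ (E1 0 (H52.cn k w)).2 (E1 0 (H52.cn (k + 1) w)).2 (by simp) (by simp)
      ?_ ?_
    · unfold LAdj
      simp [E1, H52.cn]
    · have e1 : (E1 0).symm ((E1 0 (H52.cn k w)).1, (E1 0 (H52.cn k w)).2) = H52.cn k w := by
        simp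
      have e2 : (E1 0).symm ((E1 0 (H52.cn k w)).1, (E1 0 (H52.cn (k + 1) w)).2) =
          H52.cn (k + 1) w := by
        have : (E1 0 (H52.cn k w)).1 = (E1 0 (H52.cn (k + 1) w)).1 := rfl
        rw [this]
        simp
      rw [e1, e2]
      exact hr
  · intro L x k u v hu hv h0
    unfold prd
    refine mul_eq_zero_of_right _ ?_
    refine fib_zero (E2 0) LAdj p2 ((gfam_iff m p2).2 h2) L _ (H52.cn k u) (H52.cn k v)
      hu hv rfl ?_
    have e1 : (E2 0 (H52.cn k u)).2 = u := by
      funext j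
      simp [E2, H52.cn]
    have e2 : (E2 0 (H52.cn k v)).2 = v := by
      funext j
      simp [E2, H52.cn]
    have e3 : (fun w => (fun v => (finProdFinEquiv.symm (x v)).2)
        ((E2 0).symm ((E2 0 (H52.cn k u)).1, w))) =
        fun a => (finProdFinEquiv.symm (x (H52.cn k a))).2 := by
      funext a
      have : (E2 0).symm ((E2 0 (H52.cn k u)).1, a) = H52.cn k a := by
        rw [AddEquiv.symm_apply_eq]
        rfl
      simp only [this]
    rw [e1, e2, e3]
    exact h0

/-- Pairs of colours of probability zero. -/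
lemma ae_of_cyl {q : ℕ} (κ : Measure ((Fin d → ℤ) → Fin q)) (P : Finset (Fin d → ℤ) →
    ((Fin d → ℤ) → Fin q) → ℝ) (hκ : ∀ (L : Finset (Fin d → ℤ)) (x : (Fin d → ℤ) → Fin q),
      κ {ω | ∀ v ∈ L, ω v = x v} = ENNReal.ofReal (P L x)) (Q : Fin q → Fin q → Prop)
    (a : Fin d → ℤ) (h : ∀ (u : Fin d → ℤ) (x : (Fin d → ℤ) → Fin q), ¬ Q (x u) (x (u + a)) →
      P {u, u + a} x = 0) : ∀ᵐ x ∂κ, ∀ u : Fin d → ℤ, Q (x u) (x (u + a)) := by
  classical
  rw [ae_all_iff]
  intro u
  rw [ae_iff]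
  have h1 : {ω : (Fin d → ℤ) → Fin q | ¬ Q (ω u) (ω (u + a))} ⊆
      ⋃ c : {c : Fin q × Fin q // ¬ Q c.1 c.2}, {ω | ω u = c.1.1 ∧ ω (u + a) = c.1.2} := by
    intro ω hω
    rw [mem_iUnion]
    exact ⟨⟨(ω u, ω (u + a)), hω⟩, rfl, rfl⟩
  refine measure_mono_null h1 (measure_iUnion_null fun c => ?_)
  by_cases hne : ∃ ω : (Fin d → ℤ) → Fin q, ω u = c.1.1 ∧ ω (u + a) = c.1.2
  · obtain ⟨x, hx1, hx2⟩ := hne
    have h2 : {ω : (Fin d → ℤ) → Fin q | ω u = c.1.1 ∧ ω (u + a) = c.1.2} =
        {ω | ∀ v ∈ ({u, u + a} : Finset (Fin d → ℤ)), ω v = x v} := by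
      ext ω
      simp only [mem_ofPred_eq, Finset.mem_insert, Finset.mem_singleton, forall_eq_or_imp,
        forall_eq]
      rw [hx1, hx2]
    rw [h2, hκ, h u x, ENNReal.ofReal_zero]
    rw [hx1, hx2]
    exact c.2
  · have h2 : {ω : (Fin d → ℤ) → Fin q | ω u = c.1.1 ∧ ω (u + a) = c.1.2} = ∅ := by
      ext ω
      simp only [mem_ofPred_eq, mem_empty_iff_false, iff_false]
      exact fun h => hne ⟨ω, h⟩
    rw [h2, measure_empty]

theorem prdStatement : Pool.Agent.OD.RG.PrdStatement := by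
  intro d n m μ ν i hμ hν
  have h1 := fam_of_law μ hμ
  have h2 := fam_of_law ν hν
  have hpos : ∀ (d q : ℕ) (μ : Measure ((Fin d → ℤ) → Fin q)), IsOneDep d q μ → 1 ≤ q := by
    intro d q μ hμ
    have := hμ.prob
    by_contra h
    have hq0 : q = 0 := by omega
    subst hq0
    have h1 : (univ : Set ((Fin d → ℤ) → Fin 0)) = ∅ := by
      ext x
      exact (x 0).elim0
    have h2 : μ univ = 1 := measure_univ
    rw [h1, measure_empty] at h2
    exact zero_ne_one h2
  have hm := hpos 1 m μ hμ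
  have hn := hpos d n ν hν
  obtain ⟨κ, hκ, hcyl⟩ := meas_cyl (d + 1) (m * n) _ (Nat.mul_pos hm hn)
    (prd_fam i m n _ _ h1 h2)
  refine ⟨κ, hκ, ?_, ?_⟩
  · refine ae_of_cyl κ _ hcyl (fun c c' => (finProdFinEquiv.symm c).1 ≠ (finProdFinEquiv.symm c').1)
      (Pi.single i 1) ?_
    intro u x hr
    rw [not_not] at hr
    unfold H99.prd
    refine mul_eq_zero_of_left ?_ _
    have h3 : (E1 i u).1 = (E1 i (u + Pi.single i 1)).1 := by
      funext j
      simp [E1]
    refine fib_zero (E1 i) LAdj _ ((gfam_iff m _).2 h1) _ _ u (u + Pi.single i 1)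
      (by simp) (by simp) h3 ?_
    refine h1.proper _ _ (E1 i u).2 (E1 i (u + Pi.single i 1)).2 (by simp) (by simp) ?_ ?_
    · unfold LAdj
      simp [E1]
    · have e1 : (E1 i).symm ((E1 i u).1, (E1 i u).2) = u := by simp
      have e2 : (E1 i).symm ((E1 i u).1, (E1 i (u + Pi.single i 1)).2) = u + Pi.single i 1 := by
        rw [h3]
        exact (E1 i).symm_apply_apply (u + Pi.single i 1)
      rw [e1, e2]
      exact hr
  · intro j r hr
    refine ae_of_cyl κ _ hcyl (fun c c' => r (finProdFinEquiv.symm c).2 ≠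
      r (finProdFinEquiv.symm c').2) (Pi.single (i.succAbove j) 1) ?_
    intro u x hr'
    rw [not_not] at hr'
    unfold H99.prd
    refine mul_eq_zero_of_right _ ?_
    have h3 : (E2 i u).1 = (E2 i (u + Pi.single (i.succAbove j) 1)).1 := by
      funext k
      simp [E2]
    have h4 : (E2 i (u + Pi.single (i.succAbove j) 1)).2 = (E2 i u).2 + Pi.single j 1 := by
      funext k
      simp only [E2, AddEquiv.coe_mk, Equiv.coe_fn_mk, Pi.add_apply]
      congr 1
      by_cases hk : k = j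
      · subst hk
        simp
      · rw [Pi.single_eq_of_ne hk, Pi.single_eq_of_ne]
        exact fun h => hk (Fin.succAbove_right_injective h)
    refine fib_zero (E2 i) LAdj _ ((gfam_iff n _).2 h2) _ _ u (u + Pi.single (i.succAbove j) 1)
      (by simp) (by simp) h3 ?_
    have e1 : (E2 i).symm ((E2 i u).1, (E2 i u).2) = u := by simp
    have e2 : (E2 i).symm ((E2 i u).1, (E2 i (u + Pi.single (i.succAbove j) 1)).2) =
        u + Pi.single (i.succAbove j) 1 := by
      rw [h3]
      exact (E2 i).symm_apply_apply (u + Pi.single (i.succAbove j) 1)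
    have := hν.prob
    unfold cyl
    rw [measureReal_eq_zero_iff]
    refine measure_mono_null (t := {ω | ¬ ∀ u : Fin d → ℤ, r (ω u) ≠ r (ω (u + Pi.single j 1))}) ?_
      (ae_iff.1 hr)
    intro ω hω h
    have h5 := hω (E2 i u).2 (by simp)
    have h6 := hω (E2 i (u + Pi.single (i.succAbove j) 1)).2 (by simp)
    simp only [e1] at h5
    simp only [e2] at h6
    apply h (E2 i u).2
    rw [← h4, h5, h6]
    exact hr'

end Pool.Agent.OD.H99
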